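import Pool.Agent.MP_ecfd11_lc.H65D.Rank

/-!
Countable cofinality of the successor in HOD reflects.
-/

set_option synthInstance.maxSize 4000

namespace Pool.Agent.MP_ecfd11_lc.H65D

open Pool.Agent.MP_ecfd11_lc.H20 Pool.Agent.MP_ecfd11_lc.H13X Pool.Agent.MP_ecfd11_lc.H3U
  Pool.Agent.MP_ecfd11_lc.H3E Pool.Agent.MP_ecfd11_lc.H65S

universe u

open ZFSet Cardinal Function Filter

variable {d m t th S L a : ZFSet.{u}} {be : ZFSet.{u} → ZFSet.{u}}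
  {e : ZFSet.{u} → ZFSet.{u} → ZFSet.{u}}

theorem link_one (ht : Regular Set.univ t) (h : Th t th) (he : Inj t th e) {y : ZFSet.{u}}
    (y1 : y ⊆ th) (y2 : ∀ c ∈ th, ∃ z ∈ y, c ⊆ z) (R : ZFSet.{u}) :
    ∀ᶠ a in cf t (unc_of_regular ht), OD Set.univ R →
      (WellFounded fun i j => i ∈ a ∧ j ∈ a ∧ pair i j ∈ R) →
        ∃ (r : ZFSet.{u} → ZFSet.{u}) (c : ZFSet.{u}), c ∈ y ∧ (∀ i ∈ a, r i ∈ c ∧ e c (r i) ∈ a) ∧
          ∀ i ∈ a, ∀ j ∈ a, pair i j ∈ R → r i ∈ r j := by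
  have hu := unc_of_regular ht
  by_cases r0 : OD Set.univ R
  swap
  · exact Eventually.of_forall fun _ h1 => absurd h1 r0
  by_cases wf : WellFounded fun i j => i ∈ t ∧ j ∈ t ∧ pair i j ∈ R
  · obtain ⟨r, n, n1, r1, r2⟩ := rk_bdd ht.1 h r0 wf
    obtain ⟨c, c1, c2⟩ := y2 n n1
    filter_upwards [ev_diag (S := t) ht (p := fun i a => e c (r i) ∈ a) fun i hi =>
      ev_above hu (he.mem c (y1 c1) _ (c2 (r1 i hi))), ev_mem hu] with a h1 h2 _ _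
    have h3 : ∀ i ∈ a, i ∈ t := fun i hi => ht.1.mem_trans hi h2.2
    exact ⟨r, c, c1, fun i hi => ⟨c2 (r1 i (h3 i hi)), h1 i hi⟩,
      fun i hi j hj => r2 i (h3 i hi) j (h3 j hj)⟩
  · rw [wellFounded_iff_isEmpty_descending_chain, not_isEmpty_iff] at wf
    obtain ⟨f, hf⟩ := wf
    filter_upwards [ev_nat (S := t) hu (p := fun n a => f n ∈ a) fun n =>
      ev_above hu (hf n).2.1] with a h1 _ h2
    rw [wellFounded_iff_isEmpty_descending_chain] at h2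
    exact (h2.false ⟨f, fun n => ⟨h1 _, h1 _, (hf n).2.2⟩⟩).elim

theorem link_code {B : ZFSet.{u} → ZFSet.{u}} (hg : Good t B a) {n : ZFSet.{u}}
    (hn : n.IsOrdinal) (h : DInj Set.univ n a) :
    ∃ (F : ZFSet.{u} → ZFSet.{u}) (x : ZFSet.{u}), x ∈ a ∧ (∀ z ∈ n, F z ∈ a) ∧
      (WellFounded fun i j => i ∈ a ∧ j ∈ a ∧ pair i j ∈ B x) ∧
      ∀ z ∈ n, ∀ y ∈ z, pair (F y) (F z) ∈ B x := by
  obtain ⟨F, f0, f1, f2⟩ := h
  have := Tm.one (C := Set.univ) (A := On) F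
  have : Tm Set.univ On (fun _ => a) := Tm.ofOrd hg.ord
  have : Tm Set.univ On (fun _ => n) := Tm.ofOrd hn
  obtain ⟨w, hw⟩ : ∃ w : ZFSet.{u}, w = (prod a a).sep fun p =>
      ∃ z, z ∈ n ∧ ∃ y, y ∈ z ∧ p = pair (F y) (F z) := ⟨_, rfl⟩
  have w0 : OD Set.univ w := od_iff.2 (hw ▸ inferInstance)
  have hm : ∀ p, p ∈ w ↔ ∃ z ∈ n, ∃ y ∈ z, p = pair (F y) (F z) := fun p => by
    rw [hw, mem_sep]
    refine ⟨fun h => h.2, fun h => ⟨?_, h⟩⟩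
    obtain ⟨z, hz, y, hy, rfl⟩ := h
    exact pair_mem_prod.2 ⟨f1 y (hn.mem_trans hy hz), f1 z hz⟩
  have w1 : w ∈ Lev a := by
    refine (mem_Lev hg.ord).2 ⟨fun p hp => ?_, hod_of w0 fun p hp => ?_⟩
    · obtain ⟨z, hz, y, hy, rfl⟩ := (hm p).1 hp
      exact (pair_vC hg.ord hg.lim).2 ⟨H3E.mem_vC hg.ord (f1 y (hn.mem_trans hy hz)),
        H3E.mem_vC hg.ord (f1 z hz)⟩
    · obtain ⟨z, hz, y, hy, rfl⟩ := (hm p).1 hp
      exact hod_pair (hod_ord (hg.ord.mem (f1 y (hn.mem_trans hy hz))))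
        (hod_ord (hg.ord.mem (f1 z hz)))
  obtain ⟨x, hx, ex⟩ := hg.tr w w1
  have hG : ∀ i, (∃ z ∈ n, F z = i) → ∃ z ∈ n, F z = i := fun _ h => h
  choose! G g1 g2 using hG
  have g3 : ∀ z ∈ n, G (F z) = z := fun z hz =>
    f2 _ (g1 _ ⟨z, hz, rfl⟩) z hz (g2 _ ⟨z, hz, rfl⟩)
  refine ⟨F, x, hx, f1, Subrelation.wf (fun {i j} hij => ?_) (InvImage.wf G mem_wf),
    fun z hz y hy => ?_⟩
  · have h1 : pair i j ∈ w := ex ▸ mem_inter.2 ⟨hij.2.2, (pair_vC hg.ord hg.lim).2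
      ⟨H3E.mem_vC hg.ord hij.1, H3E.mem_vC hg.ord hij.2.1⟩⟩
    obtain ⟨z, hz, y, hy, e1⟩ := (hm _).1 h1
    obtain ⟨rfl, rfl⟩ := pair_inj.1 e1
    show G (F y) ∈ G (F z)
    rwa [g3 y (hn.mem_trans hy hz), g3 z hz]
  · have h1 : pair (F y) (F z) ∈ w := (hm _).2 ⟨z, hz, y, hy, rfl⟩
    rw [ex] at h1
    exact (mem_inter.1 h1).1

theorem link (ht : Regular Set.univ t) (h : Th t th) (he : Inj t th e) (hn : ¬ Unc th)
    {B : ZFSet.{u} → ZFSet.{u}} (hB : ∀ᶠ L in cf t (unc_of_regular ht), Good t B L) :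
    ∀ᶠ a in cf t (unc_of_regular ht), ∀ n, Th a n →
      ∃ y, card y ≤ ℵ₀ ∧ y ⊆ n ∧ ∀ x ∈ n, ∃ b ∈ y, x ⊆ b := by
  obtain ⟨y, y1, y2, y3⟩ : ∃ y, y ⊆ th ∧ card y ≤ card om ∧ ∀ c ∈ th, ∃ z ∈ y, c ⊆ z := by
    by_contra h0
    refine hn ⟨h.1, fun y y1 y2 => ?_⟩
    by_contra h1
    refine h0 ⟨y, y1, y2, fun c hc => ?_⟩
    by_contra h2
    exact h1 ⟨c, hc, fun z hz => ((h.1.mem (y1 hz)).mem_or_subset (h.1.mem hc)).resolve_right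
      fun h3 => h2 ⟨z, hz, h3⟩⟩
  filter_upwards [ev_diag (S := t) ht fun x _ => link_one ht h he y1 y3 (B x), hB] with a h1 hg n hn
  have := he.tm
  have := Tm.two (C := Set.univ) (A := On) e
  have : Tm Set.univ On (fun _ => a) := Tm.ofOrd hg.ord
  have key : ∀ c ∈ y, ∃ b ∈ n, ∀ (r : ZFSet.{u}) (f : ZFSet.{u} → ZFSet.{u}), r.IsOrdinal →
      (∀ z ∈ r, f z ∈ c.sep fun z => e c z ∈ a) → (∀ z ∈ r, ∀ y ∈ z, f y ∈ f z) → r ⊆ b := by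
    intro c hc
    have c0 : c.IsOrdinal := h.1.mem (y1 hc)
    have : Tm Set.univ On (fun _ => c) := Tm.ofOrd c0
    exact ot_bdd hn (od_iff.2 inferInstance) (fun z hz => c0.mem (mem_sep.1 hz).1)
      ⟨fun z => e c z, inferInstance, fun z hz => (mem_sep.1 hz).2, fun z hz z' hz' =>
        he.inj c (y1 hc) z (mem_sep.1 hz).1 z' (mem_sep.1 hz').1⟩
  choose! b b1 b2 using key
  refine ⟨img b y, (card_img_le _ _).trans (y2.trans_eq card_om), fun z hz => ?_, fun x hx => ?_⟩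
  · obtain ⟨c, hc, rfl⟩ := mem_img.1 hz
    exact b1 c hc
  · have x0 : x.IsOrdinal := hn.1.mem hx
    obtain ⟨F, w, w1, f1, wf, f2⟩ := link_code hg x0 (hn.2.1 x hx)
    obtain ⟨r, c, c1, r1, r2⟩ := h1 w w1 (hg.hod w w1).self wf
    exact ⟨b c, mem_img.2 ⟨c, c1, rfl⟩, b2 c c1 x (fun z => r (F z)) x0
      (fun z hz => mem_sep.2 (r1 _ (f1 z hz))) fun z hz y hy =>
        r2 _ (f1 y (x0.mem_trans hy hz)) _ (f1 z hz) (f2 z hz y hy)⟩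

end Pool.Agent.MP_ecfd11_lc.H65D
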