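import Pool.Agent.MP_ecfd11_lc.H65D.Sup
import Pool.Agent.MP_ecfd11_lc.H65D.Link
import Pool.Agent.MP_ecfd11_lc.H46M.Main
import Pool.Agent.MP_ecfd11_lc.H3G.Main

/-!
The dichotomy.
-/

set_option synthInstance.maxSize 4000

namespace Pool.Agent.MP_ecfd11_lc.H65D

open Pool.Agent.MP_ecfd11_lc.H20 Pool.Agent.MP_ecfd11_lc.H13X Pool.Agent.MP_ecfd11_lc.H3U
  Pool.Agent.MP_ecfd11_lc.H3E Pool.Agent.MP_ecfd11_lc.H65S Pool.Agent.MP_ecfd11_lc.H46M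
  Pool.Agent.MP_ecfd11_lc.H3G

universe u

open ZFSet Cardinal Function Filter

theorem Th.cofOmega {t th : ZFSet.{u}} (h : Th t th) (ht : t.IsOrdinal) (ho : om ⊆ t)
    (hn : ¬ Unc th) : CofOmega Set.univ th := by
  have h1 := (h.succ ht).1
  refine by_contra fun h2 => hn (unc_of_not_cof h.1 (fun b hb => ?_) h1 h2)
  rcases (h.1.mem hb).mem_or_subset (h.1.mem h1) with h3 | h3
  · exact ⟨t, h1, h3⟩
  · have bo := h.1.mem hb
    refine ⟨insert b b, ((isOrdinal_succ bo).mem_or_subset h.1).resolve_right fun h4 =>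
      h.2.2 ((DInj.of_subset h4).trans ((DInj.hotel bo fun z hz => h3 (ho hz)).trans
        (h.2.1 b hb))), mem_insert _ _⟩

theorem mainD {d x t : ZFSet.{u}} {k : Cardinal.{u}} (hd : StronglyCompact d t) (hdt : d ∈ t)
    (hx : x ∈ t) (hp : 2 ^ card (d ∪ x) < card t) (ht : Regular Set.univ t) (hk : ℵ₀ ≤ k)
    (hw : ∀ e ∈ t, card e ^ k < card t)
    (hs : ∀ l, x ∈ l → l ⊆ succCard t → Regular Set.univ l → StronglyMeasurable Set.univ l) :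
    ∃ th, HODSucc t th ∧ (SupHOD t th ∨ CofOmega Set.univ th ∧
    ∃ c, Club t c ∧ ∀ a ∈ c, (card a).IsStrongLimit →
      ¬ Regular Set.univ (card a).ord.toZFSet →
      (∀ y, y ⊆ a → card y ≤ k → ∃ b ∈ a, ∀ z ∈ y, z ∈ b) → (∃ l < card a, Few l a (Lev a)) →
      ∃ (N : Set ZFSet.{u}) (j : ZFSet.{u} → ZFSet.{u}), Near t N ∧
        Elem {y | HOD Set.univ y} N j ∧ (∀ y ∈ a, j y = y) ∧ j a = t ∧
        ∀ Q, Q ∈ vonNeumann t.rank → (∃ z, z ∈ Q) → (∀ y ∈ Q, ∀ z ∈ Q, pair y z ∈ Q) →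
          Few k a Q →
          ∃ (M : Set ZFSet.{u}) (i e : ZFSet.{u} → ZFSet.{u}), Internal M i ∧ Elem M N e ∧
            (∀ y, HOD Set.univ y → e (i y) = j y) ∧ (∀ z ∈ Q, ∃ w ∈ M, e w = z) ∧
            (∃ r, HOD Set.univ r ∧ ∀ p, p ∈ r ↔ ∃ w ∈ M, e w ∈ Q ∧ p = pair (e w) w) ∧
            (Q.IsTransitive → ∀ z ∈ Q, z ∈ M ∧ e z = z)) := by
  obtain ⟨g, go, rfl⟩ : ∃ g : ZFSet.{u}, g.IsOrdinal ∧ card g = k :=
    ⟨_, isOrdinal_toZFSet _, card_ord' k⟩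
  have hu := unc_of_regular ht
  have hw' : ∀ e ∈ t, card e ^ ℵ₀ < card t := fun e he => by
    by_cases h2 : card e = 0
    · rw [h2]
      exact (zero_power_le _).trans_lt (one_lt_aleph0.trans ht.aleph0_lt)
    · exact (power_le_power_left h2 hk).trans_lt (hw e he)
  have h5 : ∀ a : ZFSet.{u}, a.IsOrdinal → a ∈ succCard a := fun a ha =>
    mem_succCard.2 ⟨ha, le_rfl⟩
  have h6 : ∀ a : ZFSet.{u}, a.IsOrdinal → x ∈ a → a ⊆ t → ℵ₀ ≤ card a →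
      StronglyMeasurable Set.univ (succCard a) := fun a ha h1 h2 h3 =>
    hs _ ((succCard_ord a).mem_trans h1 (h5 a ha)) (fun z hz => mem_succCard.2
      ⟨(mem_succCard.1 hz).1, (mem_succCard.1 hz).2.trans (card_mono h2)⟩) (regular_succCard h3)
  have hst := hs t hx ((succCard_ord t).subset_of_mem (h5 t ht.1)) ht
  have hL := card_Lev (h6 t ht.1 hx subset_rfl ht.aleph0_lt.le) (h5 t ht.1)
  obtain ⟨th, t0, t1, t2, t3⟩ := exists_th ht.1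
  have hth : Th t th := ⟨t0, t1, t2⟩
  refine ⟨th, hth.succ ht.1, ?_⟩
  by_cases hn : Unc th
  · exact Or.inl (supA hd hdt hx hp ht hs hth (t3.trans hL) hn)
  refine Or.inr ⟨hth.cofOmega ht.1 (ht.1.subset_of_mem ht.2.1) hn, ?_⟩
  obtain ⟨ee, he⟩ := hth.inj ht.1
  obtain ⟨B, hB⟩ := system2 hd hdt hst hL hw'
  obtain ⟨c, c1, c2⟩ := (ev_iff hu).1 (hB.and ((realM hk ht hw (hB.mono fun _ h => h.1)).and
    ((ev_above hu hx).and (link ht hth he hn (hB.mono fun _ h => h.1)))))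
  refine ⟨c, c1, fun a ha a1 a2 a3 a4 => ?_⟩
  obtain ⟨⟨G, g1⟩, g2, g3, g4⟩ := not_not.1 fun h => c2 a (mem_sep.2 ⟨c1.1 ha, h⟩) ha
  have au := BdK.unc a3 hk G.ord
  have sl := sl_of a1 a2 au
  have hc : H46M.Cof (card g) a := by
    obtain ⟨n, m0, m1, m2, -⟩ := exists_th G.ord
    obtain ⟨y, y1, y2⟩ := g4 n ⟨m0, m1, m2⟩
    exact (cof_iff G.ord m0 m1 m2).2 ⟨y, y1.trans hk, y2⟩
  obtain ⟨N, j, n1, n2, n3, n4, n5, n6⟩ := g1 au
  refine ⟨N, j, n1, n2, n3, n4, fun Q q1 q2 q3 hQ => ?_⟩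
  have q0 : HOD Set.univ Q := by
    obtain ⟨n, f, hn, f0, f1, f2, -⟩ := hQ
    have := hod_tm f0
    have e : Q = img (app f) n := ZFSet.ext fun z => ⟨fun hz => by
      obtain ⟨r, hr⟩ := f2 z hz
      exact mem_img.2 ⟨r, (pair_mem_prod.1 (f1.1 hr)).1, f1.app_eq hr⟩, fun hz => by
      obtain ⟨r, hr, rfl⟩ := mem_img.1 hz
      exact f1.app_mem' hr⟩
    rw [e]
    exact hod_img (hod_ord hn).self _ fun i hi => hod_app f0 f1 hi
  suffices h : ∃ E, HOD Set.univ E ∧ ∀ y z, pair y z ∈ E ↔ y ∈ Lev a ∧ z ∈ Q ∧ z ∈ j y by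
    obtain ⟨E, e0, e1⟩ := h
    obtain ⟨M, i, e, m1, m2, m3, m4, m5⟩ :=
      n6 Q E q0 ((isTransitive_vonNeumann _).subset_of_mem q1) q2 q3 e0 e1
    exact ⟨M, i, e, m1, m2, m3, m4, m5,
      fun h => fix_of_elem (fun x hx => (m1.1 x hx).2) m2 h m4⟩
  obtain ⟨n, f, f0, f1, f2, m3⟩ := extM hk go ht (c1.1 ha) G a3 sl (g2 a3)
    (h6 a G.ord g3 G.sub sl.unc.le) a4 q0 (fun _ => ⟨q1, hQ⟩) fun h => absurd hc h
  have := hod_tm f0
  refine ⟨img (fun p => pair (fst p) (app f (snd p))) (ExQ B a n f),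
    hod_img m3.self _ fun p hp => ?_, fun y z => ?_⟩
  · obtain ⟨x, hx, y, hy, rfl⟩ := mem_prod.1 (ExQ_sub hp)
    rw [fst_pair, snd_pair]
    exact hod_pair ((mem_Lev G.ord).1 hx).2 (hod_app f0 f1 hy)
  · rw [mem_img]
    constructor
    · rintro ⟨p, hp, e⟩
      obtain ⟨x, -, i, -, rfl⟩ := mem_prod.1 (ExQ_sub hp)
      rw [fst_pair, snd_pair] at e
      obtain ⟨rfl, rfl⟩ := pair_inj.1 e
      obtain ⟨p1, p2, w, w1, w2, w3⟩ := mem_ExQ.1 hp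
      exact ⟨p1, f1.app_mem' p2, by rwa [w2, n5 w w1]⟩
    · rintro ⟨p1, p2, p3⟩
      obtain ⟨i, hi⟩ := f2 z p2
      obtain ⟨w, w1, rfl⟩ := G.tr y p1
      refine ⟨pair _ i, mem_ExQ.2 ⟨p1, (pair_mem_prod.1 (f1.1 hi)).1, w, w1, rfl, ?_⟩, ?_⟩
      · rwa [f1.app_eq hi, ← n5 w w1]
      · rw [fst_pair, snd_pair, f1.app_eq hi]

theorem mainE {d x t : ZFSet.{u}} {k : Cardinal.{u}} (hd : StronglyCompact d t) (hdt : d ∈ t)
    (hx : x ∈ t) (hp : 2 ^ card (d ∪ x) < card t) (ht : Regular Set.univ t) (hk : ℵ₀ ≤ k)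
    (hw : ∀ e ∈ t, card e ^ k < card t)
    (hs : ∀ l, x ∈ l → l ⊆ succCard t → Regular Set.univ l → StronglyMeasurable Set.univ l) :
    ∃ th, HODSucc t th ∧ (SupHOD t th ∨ CofOmega Set.univ th ∧
    ∃ c, Club t c ∧ ∀ a ∈ c, (card a).IsStrongLimit →
      ¬ Regular Set.univ (card a).ord.toZFSet →
      (∀ y, y ⊆ a → card y ≤ k → ∃ b ∈ a, ∀ z ∈ y, z ∈ b) → (∃ l < card a, Few l a (Lev a)) →
      ∀ Q, Q ∈ vonNeumann t.rank → Q.IsTransitive → a ∈ Q →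
        (∀ y ∈ Q, ∀ z ∈ Q, pair y z ∈ Q) → Few k a Q →
        ∃ (M : Set ZFSet.{u}) (i : ZFSet.{u} → ZFSet.{u}), Internal M i ∧ (∀ y ∈ a, i y = y) ∧
          ∀ z ∈ Q, z ∈ M ∧ (z.IsOrdinal → z ∈ i a)) := by
  refine (mainD hd hdt hx hp ht hk hw hs).imp fun th h => h.imp_right fun h => h.imp_right
    fun ⟨h0, c, c1, c2⟩ => ⟨h0, c, c1, fun a ha a1 a2 a3 a4 Q q1 q2 q3 q4 q5 => ?_⟩
  obtain ⟨N, j, -, -, n3, n4, n5⟩ := c2 a ha a1 a2 a3 a4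
  obtain ⟨M, i, e, m1, m2, m3, -, -, m6⟩ := n5 Q q1 ⟨a, q3⟩ q4 q5
  have ao := ht.1.mem (c1.1 ha)
  have im : ∀ y : ZFSet.{u}, y.IsOrdinal → i y ∈ M := fun y hy => m1.2.1.1 y (hod_ord hy)
  refine ⟨M, i, m1, fun y hy => ?_, fun z hz => ⟨(m6 q2 z hz).1, fun zo => ?_⟩⟩
  · obtain ⟨h1, h2⟩ := m6 q2 y (q2.mem_trans hy q3)
    exact (m2.2 (.eq 0 1) (cons (i y) fun _ => y) fun n => by
      cases n; exacts [im y (ao.mem hy), h1]).2
        (((m3 y (hod_ord (ao.mem hy))).trans (n3 y hy)).trans h2.symm)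
  · obtain ⟨h1, h2⟩ := m6 q2 z hz
    refine (m2.2 (.mem 0 1) (cons z fun _ => i a) fun n => by
      cases n; exacts [h1, im a ao]).2 ?_
    change e z ∈ e (i a)
    rw [h2, m3 a (hod_ord ao), n4]
    exact (zo.rank_lt_iff_mem ht.1).1
      (mem_vonNeumann.1 ((isTransitive_vonNeumann _).mem_trans hz q1))

end Pool.Agent.MP_ecfd11_lc.H65D
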