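import Pool.Agent.MP_ecfd11_lc.H65D.Defs
import Pool.Agent.MP_ecfd11_lc.H65S.Main
import Pool.Agent.MP_ecfd11_lc.H57F.Gap

/-!
The successor of a cardinal in HOD, and the sets that are decoded.
-/

set_option synthInstance.maxSize 4000

namespace Pool.Agent.MP_ecfd11_lc.H65D

open Pool.Agent.MP_ecfd11_lc.H20 Pool.Agent.MP_ecfd11_lc.H13X Pool.Agent.MP_ecfd11_lc.H3U
  Pool.Agent.MP_ecfd11_lc.H3E Pool.Agent.MP_ecfd11_lc.H65S

universe u

open ZFSet Cardinal Function Filter

/-- `th` is the least ordinal without a definable injection into `t`. -/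
def Th (t th : ZFSet.{u}) : Prop :=
  th.IsOrdinal ∧ (∀ b ∈ th, DInj Set.univ b t) ∧ ¬ DInj Set.univ th t

/-- A uniformly definable family of injections `x → t`, `x < th`. -/
structure Inj (t th : ZFSet.{u}) (e : ZFSet.{u} → ZFSet.{u} → ZFSet.{u}) : Prop where
  tm : Tm Set.univ On (fun v => e (v 0) (v 1))
  mem : ∀ x ∈ th, ∀ y ∈ x, e x y ∈ t
  inj : ∀ x ∈ th, ∀ y ∈ x, ∀ z ∈ x, e x y = e x z → y = z

/-- The indices whose initial part is sent by `be` below some member of `L`. -/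
noncomputable def aL (t : ZFSet.{u}) (be : ZFSet.{u} → ZFSet.{u}) (L : ZFSet.{u}) : ZFSet.{u} :=
  t.sep fun i => ∃ z ∈ L, ∀ i' ∈ insert i i, be i' ∈ z

/-- The small subset of `L` given by `be`. -/
noncomputable def XL (t : ZFSet.{u}) (be : ZFSet.{u} → ZFSet.{u}) (L : ZFSet.{u}) : ZFSet.{u} :=
  img be (aL t be L)

/-- An enumeration of `th` in length `t`, the cofinality of `th`. -/
structure En (t th : ZFSet.{u}) (be : ZFSet.{u} → ZFSet.{u}) : Prop where
  reg : Regular Set.univ t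
  unc : Unc th
  bd : H57F.Bd (card t) th
  mem : ∀ i ∈ t, be i ∈ th
  sur : ∀ z ∈ th, ∃ i ∈ t, be i = z

/-- Countable cofinality. -/
def Cw (x : ZFSet.{u}) : Prop := Sm (succCard om) x

/-- The points of countable cofinality at which `z` has index in `a`. -/
noncomputable def Az (th : ZFSet.{u}) (e : ZFSet.{u} → ZFSet.{u} → ZFSet.{u})
    (z a : ZFSet.{u}) : ZFSet.{u} :=
  th.sep fun x => Cw x ∧ z ∈ x ∧ e x z ∈ a

/-- The set decoded at `L` from `a`. -/
noncomputable def Ph (th : ZFSet.{u}) (e : ZFSet.{u} → ZFSet.{u} → ZFSet.{u})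
    (L a : ZFSet.{u}) : ZFSet.{u} :=
  L.sep fun z => ¬ Null L (Az th e z a)

end Pool.Agent.MP_ecfd11_lc.H65D
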