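import Pool.Agent.MP_ecfd11_lc.H65D.Base

/-!
Few points are decoded at the top.
-/

set_option synthInstance.maxSize 4000

namespace Pool.Agent.MP_ecfd11_lc.H65D

open Pool.Agent.MP_ecfd11_lc.H20 Pool.Agent.MP_ecfd11_lc.H13X Pool.Agent.MP_ecfd11_lc.H3U
  Pool.Agent.MP_ecfd11_lc.H3E Pool.Agent.MP_ecfd11_lc.H65S

universe u

open ZFSet Cardinal Function Filter

variable {d m t th S L a : ZFSet.{u}} {be : ZFSet.{u} → ZFSet.{u}}
  {e : ZFSet.{u} → ZFSet.{u} → ZFSet.{u}}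

theorem bdd_row (hu : Unc th) (he : Inj t th e) (hd : Regular Set.univ d) (hr : Refl d th)
    (hm : H57F.Gap d m) {i : ZFSet.{u}} (hi : i.IsOrdinal) :
    card (th.sep fun z => ¬ Null th (th.sep fun x => Cw x ∧ z ∈ x ∧ e x z = i)) ≤ card m := by
  by_contra h0
  have : Tm Set.univ On (fun _ => th) := Tm.ofOrd hu.1
  have : Tm Set.univ On (fun _ => i) := Tm.ofOrd hi
  have := he.tm
  have e2 : ∀ (s r : (ℕ → ZFSet.{u}) → ZFSet.{u}) [Tm Set.univ On s] [Tm Set.univ On r],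
      Tm Set.univ On (fun v => e (s v) (r v)) := fun s r _ _ => Tm.two e s r
  have : Tm Set.univ On (fun _ => succCard om) := Tm.ofOrd (succCard_ord om)
  obtain ⟨P, hP⟩ : ∃ P, P = th.sep fun z =>
      ¬ Null th (th.sep fun x => Cw x ∧ z ∈ x ∧ e x z = i) := ⟨_, rfl⟩
  have p0 : Tm Set.univ On (fun _ => P) := by
    rw [hP]
    unfold Cw
    infer_instance
  rw [← hP] at h0
  have p1 : ∀ z ∈ P, z ∈ th ∧ ¬ Null th (th.sep fun x => Cw x ∧ z ∈ x ∧ e x z = i) :=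
    fun z hz => mem_sep.1 (hP ▸ hz)
  obtain ⟨k, k0, k1, k2⟩ := od_enum (od_iff.2 p0)
    fun z hz => od_iff.2 (Tm.ofOrd (hu.1.mem (p1 z hz).1))
  have := Tm.one (C := Set.univ) (A := On) k
  have h1 : m ⊆ img k P := by
    by_contra h1
    rw [← k1.notMem_iff_subset hm.1, not_not] at h1
    exact h0 ((card_le_of_inj k (fun z hz => mem_img.2 ⟨z, hz, rfl⟩) k2).trans
      (card_mono (hm.1.subset_of_mem h1)))
  refine H57F.sat_bd hd hr hu hm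
    (fun j => th.sep fun x => ∃ z ∈ P, k z = j ∧ Sm (succCard om) x ∧ z ∈ x ∧ e x z = i)
    inferInstance (fun j hj => ⟨fun y hy => ?_, fun h2 => ?_⟩) fun j _ j' _ y y1 y2 => ?_
  · obtain ⟨z, -, -, ⟨Y, z1, z2, z3⟩, -⟩ := (mem_sep.1 hy).2
    refine ⟨Y, z1, fun h3 => z2 ?_, z3⟩
    rw [card_succCard]
    exact (Order.succ_le_of_lt (hd.card_lt hd.2.1)).trans h3
  · obtain ⟨z, z1, z2⟩ := mem_img.1 (h1 hj)
    exact (p1 z z1).2 (h2.mono fun x hx hx' => mem_sep.2 ⟨hx', z, z1, z2, (mem_sep.1 hx).2⟩)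
  · obtain ⟨y0, z, -, rfl, -, z1, z2⟩ := mem_sep.1 y1
    obtain ⟨-, z', -, rfl, -, z3, z4⟩ := mem_sep.1 y2
    rw [he.inj y y0 z z1 z' z3 (z2.trans z4.symm)]

theorem ph_small (ht : Regular Set.univ t) (hu : Unc th) (hk : H57F.Bd (card t) th)
    (he : Inj t th e) (hd : Regular Set.univ d) (hr : Refl d th) (hm : H57F.Gap d m)
    (hmt : m ∈ t) (ha : a ∈ t) : card (Ph th e th a) < card t := by
  refine lt_of_le_of_lt ((card_mono fun z hz => ?_).trans (card_sUnion_img_le (x := a)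
    (F := fun i => th.sep fun z => ¬ Null th (th.sep fun x => Cw x ∧ z ∈ x ∧ e x z = i))
    fun i hi => bdd_row hu he hd hr hm ((ht.1.mem ha).mem hi)))
    (mul_lt_of_lt ht.aleph0_lt.le (ht.card_lt ha) (ht.card_lt hmt))
  obtain ⟨z1, z2⟩ := mem_sep.1 hz
  by_contra h0
  refine z2 (Null.mono ((ev_iff hu).1 (H57F.ev_small (S := th.sep fun x => Cw x ∧ z ∈ x) hu hk
    (ht.card_lt ha) (p := fun i L => e L z ≠ i) fun i hi => ?_)) fun x hx hx' => ?_)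
  · by_contra h1
    refine h0 (mem_sUnion.2 ⟨_, mem_img.2 ⟨i, hi, rfl⟩, mem_sep.2 ⟨z1, fun h2 =>
      h1 ((ev_iff hu).2 (h2.mono fun x hx hx' => ?_))⟩⟩)
    obtain ⟨x1, x2⟩ := mem_sep.1 hx
    exact mem_sep.2 ⟨hx', (mem_sep.1 x1).2.1, (mem_sep.1 x1).2.2, not_not.1 x2⟩
  · obtain ⟨-, x1, x2, x3⟩ := mem_sep.1 hx
    exact mem_sep.2 ⟨mem_sep.2 ⟨hx', x1, x2⟩, fun h1 => h1 _ x3 rfl⟩

theorem ev_null (hu : Unc th) {X : ZFSet.{u}} (h : Null th X) :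
    ∀ᶠ L in cf S hu, Null L X := by
  obtain ⟨c, c1, c2⟩ := h
  filter_upwards [ev_club hu (hu.club_lim c1.1 c1.2.1)] with L hL
  exact ⟨_, club_inter_lim hu.1 c1 hL, fun x hx hx' => c2 x hx (mem_inter.1 hx').1⟩

end Pool.Agent.MP_ecfd11_lc.H65D
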