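import Pool.Agent.MP_ecfd11_lc.H65D.Clo
import Pool.Agent.MP_ecfd11_lc.H65D.Bdd

/-!
The small sets are ordinal definable, uniformly.
-/

set_option synthInstance.maxSize 4000

namespace Pool.Agent.MP_ecfd11_lc.H65D

open Pool.Agent.MP_ecfd11_lc.H20 Pool.Agent.MP_ecfd11_lc.H13X Pool.Agent.MP_ecfd11_lc.H3U
  Pool.Agent.MP_ecfd11_lc.H3E Pool.Agent.MP_ecfd11_lc.H65S

universe u

open ZFSet Cardinal Function Filter

variable {d m t th S L a : ZFSet.{u}} {be : ZFSet.{u} → ZFSet.{u}}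
  {e : ZFSet.{u} → ZFSet.{u} → ZFSet.{u}}

theorem ph_mono {a' : ZFSet.{u}} (h : a ⊆ a') : Ph th e L a ⊆ Ph th e L a' := fun _ hz =>
  mem_sep.2 ⟨(mem_sep.1 hz).1, fun h1 => (mem_sep.1 hz).2 (h1.mono fun _ hx _ =>
    mem_sep.2 ⟨(mem_sep.1 hx).1, (mem_sep.1 hx).2.1, (mem_sep.1 hx).2.2.1,
      h (mem_sep.1 hx).2.2.2⟩)⟩

theorem En.decode (h : En t th be) (he : Inj t th e)
    (hs : ∀ a ∈ t, card (Ph th e th a) < card t) :
    ∃ Ps : ZFSet.{u} → ZFSet.{u}, Tm Set.univ On (fun v => Ps (v 0)) ∧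
      ∀ᶠ L in cf S h.unc, Unc L → Ps L = XL t be L := by
  have := he.tm
  have := Tm.two (C := Set.univ) (A := On) e
  have : Tm Set.univ On (fun _ => th) := Tm.ofOrd h.unc.1
  have : Tm Set.univ On (fun _ => t) := Tm.ofOrd h.reg.1
  have : Tm Set.univ On (fun _ => succCard om.{u}) := Tm.ofOrd (succCard_ord _)
  have : Tm Set.univ On (fun v => Ph th e (v 0) (v 1)) := by
    unfold Ph Az Cw; infer_instance
  have := Tm.two (C := Set.univ) (A := On) (Ph th e)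
  refine ⟨fun L => L.sep fun z => ∀ a, a ∈ t →
    (∀ y, y ∈ L → ∃ x, x ∈ Ph th e L a ∧ y ∈ x) → z ∈ Ph th e L a, inferInstance, ?_⟩
  have k1 : ∀ᶠ L in cf S h.unc, ∀ a ∈ aL t be L, ∃ c ∈ L, ∀ z ∈ Ph th e th a, z ∈ c :=
    h.diag fun a ha => by
      obtain ⟨c, c1, c2⟩ := h.bd _ sep_subset (hs a ha)
      filter_upwards [ev_above h.unc c1] with L hL using ⟨c, hL, c2⟩
  have k2 : ∀ᶠ L in cf S h.unc, ∀ a ∈ aL t be L, ∀ z ∈ XL t be L,
      z ∈ Ph th e L a → z ∈ Ph th e th a :=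
    h.diag fun a _ => h.diagX fun z hz => by
      by_cases h1 : Null th (Az th e z a)
      · filter_upwards [ev_null h.unc h1] with L hL h2 using absurd hL (mem_sep.1 h2).2
      · exact Eventually.of_forall fun _ _ => mem_sep.2 ⟨hz, h1⟩
  filter_upwards [k1, k2, h.x1 he, h.c1, ev_mem h.unc] with L l1 l2 l3 l4 l5 hL
  have a1 := h.aL_mem l5.2
  have ao := h.reg.1.mem a1
  refine ZFSet.ext fun z => ⟨fun hz => ?_, fun hz => mem_sep.2 ⟨h.XL_sub l5.2 hz, ?_⟩⟩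
  · rw [← l3 hL]
    exact (mem_sep.1 hz).2 _ a1 fun y hy => by rw [l3 hL]; exact l4 y hy
  · intro a ha h1
    rcases (h.reg.1.mem ha).mem_or_subset ao with h2 | h2
    · obtain ⟨c, c1, c2⟩ := l1 a h2
      obtain ⟨x, x1, x2⟩ := h1 c c1
      exact absurd (c2 x (l2 a h2 x (l3 hL ▸ ph_mono (ao.subset_of_mem h2) x1) x1))
        (mem_asymm x2)
    · exact ph_mono h2 (l3 hL ▸ hz)

end Pool.Agent.MP_ecfd11_lc.H65D
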