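import Pool.Agent.MP_ecfd11_lc.H65D.Base

/-!
The successor in HOD has cofinality `ω` or full cofinality.
-/

set_option synthInstance.maxSize 4000

namespace Pool.Agent.MP_ecfd11_lc.H65D

open Pool.Agent.MP_ecfd11_lc.H20 Pool.Agent.MP_ecfd11_lc.H13X Pool.Agent.MP_ecfd11_lc.H3U
  Pool.Agent.MP_ecfd11_lc.H3E Pool.Agent.MP_ecfd11_lc.H65S

universe u

open ZFSet Cardinal Function Filter

variable {d m t th S L a : ZFSet.{u}} {be : ZFSet.{u} → ZFSet.{u}}
  {e : ZFSet.{u} → ZFSet.{u} → ZFSet.{u}}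

theorem sup0_club (ht : Regular Set.univ t) (hu : Unc th) (hn : ¬ H57F.Bd (card t) th) :
    ∃ E, Club th E ∧ card E < card t := by
  obtain ⟨k, E, e1, e2, e3⟩ := H57F.exists_frame hu
  have hk : k < card t := not_le.1 fun h => hn (e2.mono h)
  unfold H57F.Bd at hn
  push Not at hn
  obtain ⟨y, y1, y2, y3⟩ := hn
  refine ⟨E, e1, ((card_mono (y := ⋃₀ img (fun z => E ∩ insert z z) y) fun x hx => ?_).trans
    (card_sUnion_img_le (k := k) fun z hz => (e3 _ (hu.succ_mem (y1 hz))).le)).trans_lt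
    (mul_lt_of_lt ht.aleph0_lt.le y2 hk)⟩
  obtain ⟨z, z1, z2⟩ := y3 x (e1.1 hx)
  refine mem_sUnion.2 ⟨_, mem_img.2 ⟨z, z1, rfl⟩, mem_inter.2 ⟨hx, mem_insert_iff.2 ?_⟩⟩
  rcases (hu.1.mem (e1.1 hx)).mem_trichotomous (hu.1.mem (y1 z1)) with k1 | k1 | k1
  exacts [Or.inr k1, Or.inl k1, absurd k1 z2]

theorem sup0 (ht : Regular Set.univ t) (h : Th t th) (he : Inj t th e) (hu : Unc th) :
    H57F.Bd (card t) th := by
  classical
  by_contra hn
  obtain ⟨E, e1, e2⟩ := sup0_club ht hu hn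
  have : Tm Set.univ On (fun _ => t) := Tm.ofOrd ht.1
  have : Tm Set.univ On (fun _ => th) := Tm.ofOrd hu.1
  have := he.tm
  have := Tm.two (C := Set.univ) (A := On) e
  let Z : ZFSet.{u} → ZFSet.{u} := fun b =>
    th.sep fun z => Null th (th.sep fun x => z ∈ x ∧ e x z ∉ b)
  have z0 : Tm Set.univ On (fun v => Z (v 0)) := by
    simp only [Z]; infer_instance
  have := Tm.one (C := Set.univ) (A := On) Z
  have z1 : ∀ z ∈ th, ∃ b ∈ t, z ∈ Z b := fun z hz => by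
    obtain ⟨b, b1, b2⟩ := ht.bddV e2 (fun x => if z ∈ x then e x z else ∅) fun x hx => by
      split_ifs with k
      exacts [he.mem x (e1.1 hx) z k, ht.empty_mem]
    refine ⟨b, b1, mem_sep.2 ⟨hz, E, e1, fun x hx hx' => ?_⟩⟩
    obtain ⟨-, x1, x2⟩ := mem_sep.1 hx
    have := b2 x hx'
    rw [if_pos x1] at this
    exact x2 this
  have z2 : ∀ b ∈ t, card (Z b) < card t := fun b hb => by
    refine ((card_mono (y := ⋃₀ img (fun x => x.sep fun z => e x z ∈ b) E) fun z hz => ?_).trans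
      (card_sUnion_img_le (k := card b) fun x hx => ?_)).trans_lt
      (mul_lt_of_lt ht.aleph0_lt.le e2 (ht.card_lt hb))
    · obtain ⟨k1, c, c1, c2⟩ := mem_sep.1 hz
      obtain ⟨x, x1, x2⟩ := (hu.club_inter c1 e1).2.1 z k1
      obtain ⟨x3, x4⟩ := mem_inter.1 x1
      refine mem_sUnion.2 ⟨_, mem_img.2 ⟨x, x4, rfl⟩, mem_sep.2 ⟨x2, ?_⟩⟩
      by_contra k
      exact c2 x (mem_sep.2 ⟨e1.1 x4, x2, k⟩) x3
    · exact card_le_of_inj (e x) (fun z hz => (mem_sep.1 hz).2) fun z hz z' hz' k =>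
        he.inj x (e1.1 hx) z (mem_sep.1 hz).1 z' (mem_sep.1 hz').1 k
  let G : ZFSet.{u} → ZFSet.{u} := fun z => leastBy t (fun x => x) fun b => z ∈ Z b
  have g0 : Tm Set.univ On (fun v => G (v 0)) :=
    Tm.leastBy t (fun x => x) fun z b => z ∈ Z b
  have g1 : ∀ z ∈ th, G z ∈ t ∧ z ∈ Z (G z) := fun z hz => leastBy_id ht.1 (z1 z hz)
  refine h.2.2 (DInj.trans (b := ZFSet.prod t t)
    ⟨fun z => pair (G z) (colIn (Z (G z)) z), inferInstance, fun z hz => ?_,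
      fun z hz z' hz' k => ?_⟩ (DInj.pairing ht.1 (ht.1.subset_of_mem ht.2.1)))
  · exact pair_mem_prod.2 ⟨(g1 z hz).1, ht.mem_of_card_lt (colIn_ord _ _)
      ((card_colIn_le _ _).trans_lt (z2 _ (g1 z hz).1))⟩
  · obtain ⟨k1, k2⟩ := pair_inj.1 k
    have k3 := (g1 z' hz').2
    rw [← k1] at k2 k3
    exact colIn_inj (fun x hx => hu.1.mem (mem_sep.1 hx).1) (g1 z hz).2 k3 k2

end Pool.Agent.MP_ecfd11_lc.H65D
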