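import Pool.Agent.MP_ecfd11_lc.H65D.Base

/-!
The ultrafilter.
-/

set_option synthInstance.maxSize 4000

namespace Pool.Agent.MP_ecfd11_lc.H65D

open Pool.Agent.MP_ecfd11_lc.H20 Pool.Agent.MP_ecfd11_lc.H13X Pool.Agent.MP_ecfd11_lc.H3U
  Pool.Agent.MP_ecfd11_lc.H3E Pool.Agent.MP_ecfd11_lc.H65S

universe u

open ZFSet Cardinal Function Filter

variable {d m t th S L a : ZFSet.{u}} {be : ZFSet.{u} → ZFSet.{u}}
  {e : ZFSet.{u} → ZFSet.{u} → ZFSet.{u}}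

theorem ultra_tm (ht : t.IsOrdinal) (hu : th.IsOrdinal) : Tm Set.univ On (fun _ => Pk t th) := by
  have : Tm Set.univ On (fun _ => t) := Tm.ofOrd ht
  have : Tm Set.univ On (fun _ => th) := Tm.ofOrd hu
  refine Tm.congr (s := fun _ => (powerset th).sep fun x => HOD Set.univ x ∧ ¬ card t ≤ card x)
    fun _ _ => ?_
  simp only [Pk, not_le]

theorem ultra_atom (hu : Unc th) (hS : Atom d th S) (Ps : ZFSet.{u} → ZFSet.{u})
    (p0 : Tm Set.univ On (fun v => Ps (v 0))) {Y : ZFSet.{u}} (hY : OD Set.univ Y) :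
    (∀ᶠ L in cf S hu, Ps L ∈ Y) ∨ ∀ᶠ L in cf S hu, Ps L ∉ Y := by
  have : Tm Set.univ On (fun _ => S) := od_iff.1 hS.1
  have : Tm Set.univ On (fun _ => Y) := od_iff.1 hY
  have := Tm.one (C := Set.univ) (A := On) Ps
  rcases hS.2.2.2 (S.sep fun L => Ps L ∈ Y) (od_iff.2 inferInstance) with h | h
  · exact Or.inr ((ev_iff hu).2 (h.mono fun x hx _ => mem_inter.2 ⟨(mem_sep.1 hx).1,
      mem_sep.2 ⟨(mem_sep.1 hx).1, not_not.1 (mem_sep.1 hx).2⟩⟩))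
  · exact Or.inl ((ev_iff hu).2 (h.mono fun x hx _ => mem_sdiff.2 ⟨(mem_sep.1 hx).1,
      fun h' => (mem_sep.1 hx).2 (mem_sep.1 h').2⟩))

theorem ultra (ht : Regular Set.univ t) (hu : Unc th) (hk : H57F.Bd (card t) th)
    (hS : Atom d th S) (Ps : ZFSet.{u} → ZFSet.{u}) (p0 : Tm Set.univ On (fun v => Ps (v 0)))
    (p1 : ∀ᶠ L in cf S hu, Ps L ⊆ th ∧ card (Ps L) < card t)
    (p2 : ∀ z ∈ th, ∀ᶠ L in cf S hu, z ∈ Ps L)
    (p3 : ∀ p : ZFSet.{u} → ZFSet.{u} → Prop, (∀ z ∈ th, ∀ᶠ L in cf S hu, p z L) →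
      ∀ᶠ L in cf S hu, ∀ z ∈ Ps L, p z L) : SupHOD t th := by
  have tP := ultra_tm ht.1 hu.1
  have hP : HOD Set.univ (Pk t th) := hod_of (od_iff.2 tP) fun y hy => (mem_sep.1 hy).2.1
  have : Tm Set.univ On (fun _ => S) := od_iff.1 hS.1
  have : Tm Set.univ On (fun _ => th) := Tm.ofOrd hu.1
  have tPs := Tm.one (C := Set.univ) (A := On) Ps
  have nb : (cf S hu).NeBot := neBot hu hS.2.2.1
  have key : ∀ᶠ L in cf S hu, Ps L ∈ Pk t th := by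
    filter_upwards [p1, ev_mem hu] with L h1 h2
    have : Tm Set.univ On (fun _ => L) := Tm.ofOrd (hu.1.mem h2.2)
    exact mem_sep.2 ⟨mem_powerset.2 h1.1,
      hod_of_subset hu.1 h1.1 (od_iff.2 (tPs fun _ => L)), h1.2⟩
  obtain ⟨U, hU⟩ : ∃ U, U = (powerset (Pk t th)).sep fun Y =>
    HOD Set.univ Y ∧ Null th (S.sep fun L => Ps L ∉ Y) := ⟨_, rfl⟩
  have mU : ∀ Y, Y ∈ U ↔ Y ⊆ Pk t th ∧ HOD Set.univ Y ∧ ∀ᶠ L in cf S hu, Ps L ∈ Y := fun Y => by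
    rw [hU, mem_sep, mem_powerset]
    exact Iff.rfl
  have sU : ∀ q : ZFSet.{u} → Prop, OD Set.univ ((Pk t th).sep q) →
      (∀ᶠ L in cf S hu, q (Ps L)) → (Pk t th).sep q ∈ U := fun q h1 h2 =>
    (mU _).2 ⟨sep_subset, hod_sub hP sep_subset h1, by
      filter_upwards [key, h2] with L a1 a2 using mem_sep.2 ⟨a1, a2⟩⟩
  refine ⟨U, hod_of (by rw [hU]; exact od_iff.2 inferInstance) fun Y hY => ((mU Y).1 hY).2.1,
    fun Y hY => ((mU Y).1 hY).1, fun h => ?_, fun Y hY Z h1 h2 h3 => ?_, fun Y h1 h2 => ?_,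
    fun F h1 h2 h3 => ?_, fun z hz => ?_, fun f h1 _ h3 => ?_⟩
  · obtain ⟨L, hL⟩ := ((mU _).1 h).2.2.exists
    exact notMem_empty _ hL
  · exact (mU Z).2 ⟨h3, h1, ((mU Y).1 hY).2.2.mono fun L hL => h2 hL⟩
  · rcases ultra_atom hu hS Ps p0 h1.self with h | h
    · exact Or.inl ((mU Y).2 ⟨h2, h1, h⟩)
    · have := hod_tm h1
      have h3 : Pk t th \ Y ⊆ Pk t th := fun x hx => (mem_sdiff.1 hx).1
      refine Or.inr ((mU _).2 ⟨h3, hod_sub hP h3 (od_iff.2 inferInstance), ?_⟩)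
      filter_upwards [key, h] with L a1 a2 using mem_sdiff.2 ⟨a1, a2⟩
  · have := hod_tm h1
    exact sU _ (od_iff.2 inferInstance)
      (H57F.ev_small hu hk h3 (p := fun Y L => Ps L ∈ Y) fun Y hY => ((mU Y).1 (h2 hY)).2.2)
  · have : Tm Set.univ On (fun _ => z) := Tm.ofOrd (hu.1.mem hz)
    exact sU _ (od_iff.2 inferInstance) (p2 z hz)
  · by_contra h0
    have := hod_tm h1
    have h4 := p3 (fun z L => pair (Ps L) z ∉ f) fun z hz => by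
      have : Tm Set.univ On (fun _ => z) := Tm.ofOrd (hu.1.mem hz)
      have h5 : OD Set.univ ((Pk t th).sep fun x => pair x z ∈ f) := od_iff.2 inferInstance
      rcases ultra_atom hu hS Ps p0 h5 with h | h
      · exact absurd ⟨z, sU _ h5 (h.mono fun L hL => (mem_sep.1 hL).2)⟩ h0
      · filter_upwards [key, h] with L a1 a2 using fun a3 => a2 (mem_sep.2 ⟨a1, a3⟩)
    obtain ⟨L, a1, a2⟩ := (h4.and ((mU _).1 h3).2.2).exists
    obtain ⟨z, z1, z2⟩ := (mem_sep.1 a2).2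
    exact a1 z z1 z2

end Pool.Agent.MP_ecfd11_lc.H65D
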