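import Pool.Agent.MP_ecfd11_lc.H65D.Th
import Pool.Agent.MP_ecfd11_lc.H65D.Sup0
import Pool.Agent.MP_ecfd11_lc.H65D.Dec
import Pool.Agent.MP_ecfd11_lc.H65D.Ultra

/-!
Supercompactness in HOD when the successor in HOD has uncountable cofinality.
-/

set_option synthInstance.maxSize 4000

namespace Pool.Agent.MP_ecfd11_lc.H65D

open Pool.Agent.MP_ecfd11_lc.H20 Pool.Agent.MP_ecfd11_lc.H13X Pool.Agent.MP_ecfd11_lc.H3U
  Pool.Agent.MP_ecfd11_lc.H3E Pool.Agent.MP_ecfd11_lc.H65S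

universe u

open ZFSet Cardinal Function Filter

variable {d m t th x : ZFSet.{u}}

theorem supG (hd : StronglyCompact d t) (hdt : d ∈ t) (ht : Regular Set.univ t)
    (hm : H57F.Gap d m) (hmt : m ∈ t) (hp : card (powerset m) < card t) (h : Th t th)
    (hc : card th ≤ card t) (hu : Unc th) : SupHOD t th := by
  obtain ⟨e, he⟩ := h.inj ht.1
  have hk := sup0 ht h he hu
  have hr : Refl d th := H57F.refl_bd (sc_move hd hc) hu (hk.mono (ht.card_lt hdt).le)
  obtain ⟨be, hb⟩ : ∃ be, En t th be := by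
    obtain ⟨F, hF⟩ := exists_surj_of_card_le hc
    classical
    refine ⟨fun i => if F i ∈ th then F i else ∅, ht, hu, hk, fun i _ => ?_, fun z hz => ?_⟩
    · split_ifs with h1
      exacts [h1, hu.empty_mem]
    · obtain ⟨i, hi, rfl⟩ := hF z hz
      exact ⟨i, hi, if_pos hz⟩
  have : Tm Set.univ On (fun _ => th) := Tm.ofOrd hu.1
  have : Tm Set.univ On (fun _ => d) := Tm.ofOrd hd.1.1
  obtain ⟨S, hS, s1⟩ := H57F.atom_bd hd.1 hr hu hm (hk.mono (Order.succ_le_of_lt hp))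
    (S := th.sep fun b => Sm d b ∧ Unc b) (od_iff.2 inferInstance)
    (fun y hy => ⟨(mem_sep.1 hy).1, (mem_sep.1 hy).2.1⟩) fun h0 =>
      hr ∅ (fun _ => ∅) (by rw [card_empty]; exact aleph0_pos.trans hd.1.aleph0_lt)
        (fun i hi => absurd hi (notMem_empty i)) (h0.mono fun y hy _ =>
          mem_sep.2 ⟨(mem_sep.1 hy).1, (mem_sep.1 hy).2.1, (mem_sep.1 hy).2.2.1⟩)
  obtain ⟨Ps, p0, p1⟩ := hb.decode (S := S) he fun a ha =>
    ph_small ht hu hk he hd.1 hr hm hmt ha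
  replace p1 : ∀ᶠ L in cf S hu, Ps L = XL t be L := by
    filter_upwards [p1, ev_mem hu] with L l1 l2 using l1 (mem_sep.1 (s1 l2.1)).2.2
  refine ultra ht hu hk hS Ps p0 ?_ (fun z hz => ?_) fun p hp => ?_
  · filter_upwards [p1, ev_mem hu] with L l1 l2
    rw [l1]
    exact ⟨fun z hz => hu.1.mem_trans (hb.XL_sub l2.2 hz) l2.2,
      (card_img_le _ _).trans_lt (ht.card_lt (hb.aL_mem l2.2))⟩
  · filter_upwards [p1, hb.fineX hz] with L l1 l2 using l1 ▸ l2
  · filter_upwards [p1, hb.diagX hp] with L l1 l2 using l1 ▸ l2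

theorem supA (hd : StronglyCompact d t) (hdt : d ∈ t) (hx : x ∈ t)
    (hp : 2 ^ card (d ∪ x) < card t) (ht : Regular Set.univ t)
    (hs : ∀ l, x ∈ l → l ⊆ succCard t → Regular Set.univ l → StronglyMeasurable Set.univ l)
    (h : Th t th) (hc : card th ≤ card t) (hu : Unc th) : SupHOD t th := by
  have h1 := union_mem ht.1 hdt hx
  have h2 := ht.1.mem h1
  have lo := succCard_ord (d ∪ x)
  have h3 : ∀ z : ZFSet.{u}, z.IsOrdinal → z ⊆ d ∪ x → z ∈ succCard (d ∪ x) := fun z z1 z2 =>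
    mem_succCard.2 ⟨z1, card_mono z2⟩
  have h4 : d ⊆ d ∪ x := fun z hz => mem_union.2 (Or.inl hz)
  obtain ⟨m, m1, m2⟩ := H57F.gap_of_sm hd.1 (h3 d hd.1.1 h4) (hs _
    (h3 x (ht.1.mem hx) fun z hz => mem_union.2 (Or.inr hz)) (fun z hz => mem_succCard.2
      ⟨(mem_succCard.1 hz).1, (mem_succCard.1 hz).2.trans (ht.card_lt h1).le⟩)
    (regular_succCard (hd.1.aleph0_lt.le.trans (card_mono h4))))
  have m3 := (mem_succCard.1 m1).2
  refine supG hd hdt ht m2 (ht.mem_of_card_lt m2.1 (m3.trans_lt (ht.card_lt h1))) ?_ h hc hu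
  rw [card_powerset]
  exact (power_le_power_left two_ne_zero m3).trans_lt hp

end Pool.Agent.MP_ecfd11_lc.H65D
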