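import Pool.Agent.MP_ecfd11_lc.H65D.Diag

/-!
The small sets contain almost all points of countable cofinality.
-/

set_option synthInstance.maxSize 4000

namespace Pool.Agent.MP_ecfd11_lc.H65D

open Pool.Agent.MP_ecfd11_lc.H20 Pool.Agent.MP_ecfd11_lc.H13X Pool.Agent.MP_ecfd11_lc.H3U
  Pool.Agent.MP_ecfd11_lc.H3E Pool.Agent.MP_ecfd11_lc.H65S

universe u

open ZFSet Cardinal Function Filter

variable {d m t th S L a : ZFSet.{u}} {be : ZFSet.{u} → ZFSet.{u}}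
  {e : ZFSet.{u} → ZFSet.{u} → ZFSet.{u}}

theorem c4_card {x X : ZFSet.{u}} (hx : x.IsOrdinal) (hX : X ⊆ x) :
    card (lim x X) ≤ card (X ∪ {x}) := by
  refine card_le_of_surj (fun y => ⋃₀ (X ∩ y)) fun g hg => ?_
  obtain ⟨g1, -, g2⟩ := mem_sep.1 hg
  obtain ⟨y, ⟨y1, y2⟩, y3⟩ := exists_min_mem (p := fun y => y ∈ X ∪ {x} ∧ g ⊆ y) (x := x)
    ⟨mem_union.2 (Or.inr (mem_singleton.2 rfl)), hx.subset_of_mem g1⟩
  refine ⟨y, y1, ZFSet.ext fun b => ⟨fun hb => ?_, fun hb => ?_⟩⟩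
  · obtain ⟨c, c1, c2⟩ := mem_sUnion.1 hb
    obtain ⟨c3, c4⟩ := mem_inter.1 c1
    have hc : c ∈ g := by
      by_contra h
      rw [(hx.mem (hX c3)).notMem_iff_subset (hx.mem g1)] at h
      exact y3 c c4 ⟨mem_union.2 (Or.inl c3), h⟩
    exact (hx.mem g1).mem_trans c2 hc
  · obtain ⟨c, c1, c2, c3⟩ := g2 b hb
    exact mem_sUnion.2 ⟨c, mem_inter.2 ⟨c1, y2 c3⟩, c2⟩

theorem c4_mono {z x : ZFSet.{u}} (h : z ⊆ x) : lim z (XL t be z) ⊆ lim x (XL t be x) := by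
  intro g hg
  obtain ⟨g1, g2, g3⟩ := mem_sep.1 hg
  refine mem_sep.2 ⟨h g1, g2, fun b hb => ?_⟩
  obtain ⟨c, c1, c2⟩ := g3 b hb
  obtain ⟨i, hi, rfl⟩ := mem_img.1 c1
  obtain ⟨i1, w, w1, w2⟩ := mem_sep.1 hi
  exact ⟨_, mem_img.2 ⟨i, mem_sep.2 ⟨i1, w, h w1, w2⟩, rfl⟩, c2⟩

theorem En.c4 (h : En t th be) : ∀ᶠ L in cf S h.unc,
    ∀ hL : Unc L, ∀ᶠ x in cf L hL, Cw x → x ∈ XL t be L := by
  have ho := h.unc.1
  have h1 : ∀ᶠ L in cf S h.unc, ∀ z ∈ L, ∀ g ∈ lim z (XL t be z), g ∈ XL t be L := by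
    refine ev_cl h.unc (p := fun z L => ∀ g ∈ lim z (XL t be z), g ∈ XL t be L) fun x hx => ?_
    have hc : card (lim x (XL t be x)) < card t := by
      refine ((c4_card (ho.mem hx) (h.XL_sub hx)).trans card_union_le).trans_lt
        (add_lt_of_lt h.reg.aleph0_lt.le
          ((card_img_le _ _).trans_lt (h.reg.card_lt (h.aL_mem hx))) ?_)
      rw [card_singleton]; exact one_lt_aleph0.trans h.reg.aleph0_lt
    filter_upwards [H57F.ev_small (S := S) h.unc h.bd hc (p := fun g L => g ∈ XL t be L)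
      fun g hg => h.fineX (ho.mem_trans (mem_sep.1 hg).1 hx)] with L l1 z hz g hg
    exact l1 g (c4_mono ((ho.mem hx).subset_of_mem hz) hg)
  filter_upwards [h1, h.c1, ev_mem h.unc] with L l1 l2 l3 hL
  filter_upwards [ev_club hL (Unc.club_lim hL (h.XL_sub l3.2) l2)] with x hx hw
  obtain ⟨x1, x2, x3⟩ := mem_sep.1 hx
  obtain ⟨y, y1, y2, y3⟩ := hw
  have hy : card y ≤ card om.{u} := by
    rw [succCard, card_ord', not_le] at y2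
    exact Order.lt_succ_iff.1 y2
  have h2 : ∀ b ∈ y, ∃ w, w ∈ L ∧ ∃ i ∈ t, (∀ i' ∈ insert i i, be i' ∈ w) ∧ b ∈ be i ∧ be i ∈ x :=
    fun b hb => by
      obtain ⟨c, c1, c2⟩ := x3 b (y1 hb)
      obtain ⟨i, hi, rfl⟩ := mem_img.1 c1
      obtain ⟨i1, w, w1, w2⟩ := mem_sep.1 hi
      exact ⟨w, w1, i, i1, w2, c2⟩
  choose! W w1 w2 using h2
  obtain ⟨c, c1, c2⟩ := hL.2 (img W y) (fun w hw => by
    obtain ⟨b, hb, rfl⟩ := mem_img.1 hw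
    exact w1 b hb) ((card_img_le _ _).trans hy)
  obtain ⟨z, z1, z2⟩ := hL.succ (union_mem hL.1 c1 x1)
  have zo := hL.1.mem z1
  refine l1 z z1 x (mem_sep.2 ⟨(hL.1.mem x1).mem_of_subset_of_mem zo
    (fun b hb => mem_union.2 (Or.inr hb)) z2, x2, fun b' hb' => ?_⟩)
  obtain ⟨b, b1, b2⟩ := y3 b' hb'
  obtain ⟨i, i1, i2, i3, i4⟩ := w2 b b1
  exact ⟨be i, mem_img.2 ⟨i, mem_sep.2 ⟨i1, W b, zo.mem_trans
    (mem_union.2 (Or.inl (c2 _ (mem_img.2 ⟨b, b1, rfl⟩)))) z2, i2⟩, rfl⟩,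
    ((hL.1.mem x1).mem i4).mem_trans b2 i3, i4⟩

end Pool.Agent.MP_ecfd11_lc.H65D
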