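import Pool.Agent.MP_ecfd11_lc.H65D.C4

/-!
Closure properties of the small sets.
-/

set_option synthInstance.maxSize 4000

namespace Pool.Agent.MP_ecfd11_lc.H65D

open Pool.Agent.MP_ecfd11_lc.H20 Pool.Agent.MP_ecfd11_lc.H13X Pool.Agent.MP_ecfd11_lc.H3U
  Pool.Agent.MP_ecfd11_lc.H3E Pool.Agent.MP_ecfd11_lc.H65S

universe u

open ZFSet Cardinal Function Filter

variable {d m t th S L a : ZFSet.{u}} {be : ZFSet.{u} → ZFSet.{u}}
  {e : ZFSet.{u} → ZFSet.{u} → ZFSet.{u}}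

theorem En.c2 (h : En t th be) (he : Inj t th e) : ∀ᶠ L in cf S h.unc,
    ∀ x ∈ XL t be L, ∀ z ∈ XL t be L, z ∈ x → e x z ∈ aL t be L := by
  refine h.diagX fun x hx => h.diagX fun z _ => ?_
  by_cases k : z ∈ x
  · exact (h.fine (he.mem x hx z k)).mono fun _ a _ => a
  · exact Eventually.of_forall fun _ a => absurd a k

theorem En.c3 (h : En t th be) (he : Inj t th e) : ∀ᶠ L in cf S h.unc,
    ∀ x ∈ XL t be L, ∀ z ∈ x, e x z ∈ aL t be L → z ∈ XL t be L := by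
  refine h.diagX fun x hx => ?_
  have k : ∀ᶠ L in cf S h.unc, ∀ i ∈ aL t be L, ∀ z ∈ x, e x z = i → z ∈ XL t be L := by
    refine h.diag fun i _ => ?_
    by_cases c : ∃ z ∈ x, e x z = i
    · obtain ⟨y, y1, y2⟩ := c
      exact (h.fineX (h.unc.1.mem_trans y1 hx)).mono fun _ a z z1 z2 =>
        he.inj x hx y y1 z z1 (y2.trans z2.symm) ▸ a
    · exact Eventually.of_forall fun _ z z1 z2 => absurd ⟨z, z1, z2⟩ c
  exact k.mono fun _ a z z1 z2 => a _ z2 z z1 rfl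

theorem En.x1 (h : En t th be) (he : Inj t th e) : ∀ᶠ L in cf S h.unc,
    Unc L → Ph th e L (aL t be L) = XL t be L := by
  filter_upwards [h.c2 he, h.c3 he, h.c4, ev_mem h.unc] with L c2 c3 c4 hL hU
  have c4' : Null L (L.sep fun x => ¬ (Cw x → x ∈ XL t be L)) := c4 hU
  ext z
  rw [Ph, mem_sep]
  refine ⟨fun ⟨_, hz⟩ => by_contra fun k => hz (c4'.mono fun x hx hxL => ?_), fun hz => ?_⟩
  · obtain ⟨-, x1, x2, x3⟩ := mem_sep.1 hx
    exact mem_sep.2 ⟨hxL, fun c => k (c3 x (c x1) z x2 x3)⟩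
  · have zL : z ∈ L := h.XL_sub hL.2 hz
    refine ⟨zL, fun k => ?_⟩
    have k1 : ∀ᶠ x in cf L hU, x ∉ Az th e z (aL t be L) :=
      k.mono fun x hx _ => not_not.1 (mem_sep.1 hx).2
    have k2 : ∀ᶠ x in cf L hU, ¬ Cw x := by
      filter_upwards [k1, c4 hU, ev_above hU zL, ev_mem hU] with x a1 a2 a3 a4 a5
      exact a1 (mem_sep.2 ⟨h.unc.1.mem_trans a4.1 hL.2, a5, a3, c2 x (a2 a5) z hz a3⟩)
    exact not_null_sm hU (regular_succCard card_om.ge)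
      (fun g hg hs => mem_sep.2 ⟨hg, not_not.2 hs⟩) k2

end Pool.Agent.MP_ecfd11_lc.H65D
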