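import Pool.Agent.MP_ecfd11_lc.H65S.Defs

/-!
Supercompactness in HOD.
-/

namespace Pool.Agent.MP_ecfd11_lc.H65D

universe u

open ZFSet

/-- `th` is the least cardinal of HOD above `a`. -/
def HODSucc (a th : ZFSet.{u}) : Prop :=
  a ∈ th ∧ H46.HODCard th ∧ ∀ z ∈ th, a ∈ z → ¬ H46.HODCard z

/-- The subsets of `th` in HOD of size less than `t`. -/
noncomputable def Pk (t th : ZFSet.{u}) : ZFSet.{u} :=
  (powerset th).sep fun x => HOD Set.univ x ∧ card x < card t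

/-- HOD satisfies: there is a `t`-complete fine normal ultrafilter on `P_t(th)`. -/
def SupHOD (t th : ZFSet.{u}) : Prop :=
  ∃ U : ZFSet.{u}, HOD Set.univ U ∧ (∀ Y ∈ U, Y ⊆ Pk t th) ∧ ∅ ∉ U ∧
    (∀ Y ∈ U, ∀ Z, HOD Set.univ Z → Y ⊆ Z → Z ⊆ Pk t th → Z ∈ U) ∧
    (∀ Y, HOD Set.univ Y → Y ⊆ Pk t th → Y ∈ U ∨ Pk t th \ Y ∈ U) ∧
    (∀ F, HOD Set.univ F → F ⊆ U → card F < card t →
      (Pk t th).sep (fun x => ∀ Y ∈ F, x ∈ Y) ∈ U) ∧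
    (∀ z ∈ th, (Pk t th).sep (fun x => z ∈ x) ∈ U) ∧
    ∀ f, HOD Set.univ f → IsFunc (Pk t th) th f →
      (Pk t th).sep (fun x => ∃ z ∈ x, pair x z ∈ f) ∈ U →
        ∃ z, (Pk t th).sep (fun x => pair x z ∈ f) ∈ U

end Pool.Agent.MP_ecfd11_lc.H65D
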