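import Pool.Agent.MP_ecfd11_lc.H65D.Base

/-!
Diagonal intersections along the enumeration.
-/

set_option synthInstance.maxSize 4000

namespace Pool.Agent.MP_ecfd11_lc.H65D

open Pool.Agent.MP_ecfd11_lc.H20 Pool.Agent.MP_ecfd11_lc.H13X Pool.Agent.MP_ecfd11_lc.H3U
  Pool.Agent.MP_ecfd11_lc.H3E Pool.Agent.MP_ecfd11_lc.H65S

universe u

open ZFSet Cardinal Function Filter

variable {d m t th S L a : ZFSet.{u}} {be : ZFSet.{u} → ZFSet.{u}}
  {e : ZFSet.{u} → ZFSet.{u} → ZFSet.{u}}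

theorem ev_cl (hb : Unc th) {p : ZFSet.{u} → ZFSet.{u} → Prop}
    (h : ∀ x ∈ th, ∀ᶠ L in cf S hb, ∀ z ∈ x, p z L) : ∀ᶠ L in cf S hb, ∀ z ∈ L, p z L := by
  obtain ⟨k, E, hE, hB, hc⟩ := H57F.exists_frame hb
  filter_upwards [ev_diag' hb hB hc (p := fun x L => ∀ z ∈ x, p z L) fun x hx => h x (hE.1 hx),
    ev_club hb (hb.club_lim hE.1 hE.2.1)] with L h1 h2 z hz
  obtain ⟨y, y1, y2, y3⟩ := (mem_sep.1 h2).2.2 z hz
  exact h1 y y1 y3 z y2

theorem En.aL_mem (h : En t th be) (hL : L ∈ th) : aL t be L ∈ t := by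
  have ht := h.reg.1
  obtain ⟨i0, h0, rfl⟩ := h.sur L hL
  have ho : (aL t be (be i0)).IsOrdinal := by
    refine isOrdinal_iff_forall_mem_isOrdinal.2 ⟨fun i hi j hj => ?_,
      fun i hi => ht.mem (mem_sep.1 hi).1⟩
    obtain ⟨i1, z, z1, z2⟩ := mem_sep.1 hi
    refine mem_sep.2 ⟨ht.mem_trans hj i1, z, z1, fun n hn => z2 n (mem_insert_of_mem _ ?_)⟩
    rcases mem_insert_iff.1 hn with rfl | hn
    exacts [hj, (ht.mem i1).mem_trans hn hj]
  refine ho.mem_of_subset_of_mem ht (fun i hi => ?_) h0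
  obtain ⟨i1, z, z1, z2⟩ := mem_sep.1 hi
  rcases (ht.mem i1).mem_trichotomous (ht.mem h0) with h1 | h1 | h1
  · exact h1
  · exact absurd (z2 i0 (h1 ▸ mem_insert _ _)) (mem_asymm z1)
  · exact absurd (z2 i0 (mem_insert_of_mem _ h1)) (mem_asymm z1)

theorem En.XL_sub (h : En t th be) (hL : L ∈ th) : XL t be L ⊆ L := by
  intro x hx
  obtain ⟨i, hi, rfl⟩ := mem_img.1 hx
  obtain ⟨-, z, z1, z2⟩ := mem_sep.1 hi
  exact (h.unc.1.mem hL).mem_trans (z2 i (mem_insert _ _)) z1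

theorem En.fine (h : En t th be) {i : ZFSet.{u}} (hi : i ∈ t) :
    ∀ᶠ L in cf S h.unc, i ∈ aL t be L := by
  have h1 := h.reg.succ_mem hi
  obtain ⟨c, c1, c2⟩ := h.bd (img be (insert i i)) (fun x hx => by
    obtain ⟨n, hn, rfl⟩ := mem_img.1 hx
    exact h.mem n (h.reg.1.mem_trans hn h1)) ((card_img_le _ _).trans_lt (h.reg.card_lt h1))
  filter_upwards [ev_above h.unc c1] with L hL
  exact mem_sep.2 ⟨hi, c, hL, fun n hn => c2 _ (mem_img.2 ⟨n, hn, rfl⟩)⟩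

theorem En.diag (h : En t th be) {p : ZFSet.{u} → ZFSet.{u} → Prop}
    (hp : ∀ i ∈ t, ∀ᶠ L in cf S h.unc, p i L) :
    ∀ᶠ L in cf S h.unc, ∀ i ∈ aL t be L, p i L := by
  filter_upwards [ev_cl (S := S) h.unc
    (p := fun z L => ∀ i ∈ t, (∀ n ∈ insert i i, be n ∈ z) → p i L) fun x hx => by
      filter_upwards [H57F.ev_small h.unc h.bd (h.reg.card_lt (h.aL_mem hx))
        fun i hi => hp i (mem_sep.1 hi).1] with L hL z hz i hi h1
      exact hL i (mem_sep.2 ⟨hi, z, hz, h1⟩)] with L hL i hi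
  obtain ⟨i1, z, z1, z2⟩ := mem_sep.1 hi
  exact hL z z1 i i1 z2

theorem En.fineX (h : En t th be) {z : ZFSet.{u}} (hz : z ∈ th) :
    ∀ᶠ L in cf S h.unc, z ∈ XL t be L := by
  obtain ⟨i, hi, rfl⟩ := h.sur z hz
  filter_upwards [h.fine hi] with L hL using mem_img.2 ⟨i, hL, rfl⟩

theorem En.diagX (h : En t th be) {p : ZFSet.{u} → ZFSet.{u} → Prop}
    (hp : ∀ z ∈ th, ∀ᶠ L in cf S h.unc, p z L) :
    ∀ᶠ L in cf S h.unc, ∀ z ∈ XL t be L, p z L := by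
  filter_upwards [h.diag (p := fun i L => p (be i) L) fun i hi => hp _ (h.mem i hi)] with L hL z hz
  obtain ⟨i, hi, rfl⟩ := mem_img.1 hz
  exact hL i hi

theorem En.c1 (h : En t th be) : ∀ᶠ L in cf S h.unc, ∀ z ∈ L, ∃ x ∈ XL t be L, z ∈ x := by
  refine ev_cl h.unc fun x hx => ?_
  filter_upwards [h.fineX hx] with L hL z hz using ⟨x, hL, hz⟩

end Pool.Agent.MP_ecfd11_lc.H65D
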