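import Pool.Agent.MP_ecfd11_lc.H65D.Base

/-!
Ranks of definable relations and order types of definable sets.
-/

set_option synthInstance.maxSize 4000

namespace Pool.Agent.MP_ecfd11_lc.H65D

open Pool.Agent.MP_ecfd11_lc.H20 Pool.Agent.MP_ecfd11_lc.H13X Pool.Agent.MP_ecfd11_lc.H3U
  Pool.Agent.MP_ecfd11_lc.H3E Pool.Agent.MP_ecfd11_lc.H65S

universe u

open ZFSet Cardinal Function Filter

variable {d m t th S L a : ZFSet.{u}} {be : ZFSet.{u} → ZFSet.{u}}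
  {e : ZFSet.{u} → ZFSet.{u} → ZFSet.{u}}

theorem Rankx.mem_th (h : Th t th) {n : ZFSet.{u}} (hn : n.IsOrdinal) (h1 : DInj Set.univ n t) :
    n ∈ th := by
  by_contra h2
  exact h.2.2 ((DInj.of_subset ((hn.notMem_iff_subset h.1).1 h2)).trans h1)

theorem rk_bdd (ht : t.IsOrdinal) (h : Th t th) {R : ZFSet.{u}} (r0 : OD Set.univ R)
    (wf : WellFounded fun i j => i ∈ t ∧ j ∈ t ∧ pair i j ∈ R) :
    ∃ (r : ZFSet.{u} → ZFSet.{u}) (n : ZFSet.{u}), n ∈ th ∧ (∀ i ∈ t, r i ∈ n) ∧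
      ∀ i ∈ t, ∀ j ∈ t, pair i j ∈ R → r i ∈ r j := by
  have : Tm Set.univ On (fun _ => t) := Tm.ofOrd ht
  have : Tm Set.univ On (fun _ => R) := od_iff.1 r0
  have wf' : WellFounded fun y x => y ∈ t.sep fun y => x ∈ t ∧ pair y x ∈ R :=
    Subrelation.wf (fun h => ⟨(mem_sep.1 h).1, (mem_sep.1 h).2⟩) wf
  obtain ⟨r, hr⟩ := exists_rec (fun x => t.sep fun y => x ∈ t ∧ pair y x ∈ R) wf'
    fun _ g => ⋃₀ img (fun z => insert (snd z) (snd z)) g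
  have : Tm Set.univ On (fun v => r (v 0)) :=
    Tm.recursion (fun _ x => t.sep fun y => x ∈ t ∧ pair y x ∈ R)
      (fun _ _ g => ⋃₀ img (fun z => insert (snd z) (snd z)) g) (fun _ => r)
      (hp := Tm.of (fun v => t.sep fun y => v 0 ∈ t ∧ pair y (v 0) ∈ R) (by infer_instance)
        fun _ _ => rfl)
      (hF := Tm.of (fun v => ⋃₀ img (fun z => insert (snd z) (snd z)) (v 1)) (by infer_instance)
        fun _ _ => rfl)
      (fun _ _ => wf') fun _ _ x _ => hr x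
  have m : ∀ x z, z ∈ r x ↔ ∃ y ∈ t, (x ∈ t ∧ pair y x ∈ R) ∧ (z = r y ∨ z ∈ r y) := fun x z => by
    rw [hr x, mem_sUnion]
    constructor
    · rintro ⟨w, hw, h1⟩
      obtain ⟨p, hp, rfl⟩ := mem_img.1 hw
      obtain ⟨y, hy, rfl⟩ := mem_img.1 hp
      rw [snd_pair] at h1
      exact ⟨y, (mem_sep.1 hy).1, (mem_sep.1 hy).2, mem_insert_iff.1 h1⟩
    · rintro ⟨y, hy, h1, h2⟩
      exact ⟨_, mem_img.2 ⟨pair y (r y), pair_mem_gr.2 ⟨mem_sep.2 ⟨hy, h1⟩, rfl⟩, rfl⟩,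
        by rw [snd_pair]; exact mem_insert_iff.2 h2⟩
  have o : ∀ x, (r x).IsOrdinal ∧ ∀ z ∈ r x, ∃ y ∈ t, r y = z := fun x => by
    induction x using wf'.induction with
    | _ x ih =>
      have k : ∀ z ∈ r x, z.IsOrdinal ∧ z ⊆ r x ∧ ∃ y ∈ t, r y = z := fun z hz => by
        obtain ⟨y, hy, h1, h2⟩ := (m x z).1 hz
        obtain ⟨i1, i2⟩ := ih y (mem_sep.2 ⟨hy, h1⟩)
        rcases h2 with rfl | h2
        · exact ⟨i1, fun w hw => (m x w).2 ⟨y, hy, h1, Or.inr hw⟩, y, hy, rfl⟩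
        · exact ⟨i1.mem h2, fun w hw => (m x w).2 ⟨y, hy, h1, Or.inr (i1.mem_trans hw h2)⟩, i2 z h2⟩
      exact ⟨isOrdinal_iff_forall_mem_isOrdinal.2 ⟨fun z hz => (k z hz).2.1, fun z hz => (k z hz).1⟩,
        fun z hz => (k z hz).2.2⟩
  have n0 : (img r t).IsOrdinal := by
    refine isOrdinal_iff_forall_mem_isOrdinal.2 ⟨fun z hz w hw => ?_, fun z hz => ?_⟩
    · obtain ⟨x, -, rfl⟩ := mem_img.1 hz
      exact mem_img.2 ((o x).2 w hw)
    · obtain ⟨x, -, rfl⟩ := mem_img.1 hz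
      exact (o x).1
  have := Tm.one (C := Set.univ) (A := On) r
  have l : ∀ z ∈ img r t, leastBy t (fun x => x) (fun i => r i = z) ∈ t ∧
      r (leastBy t (fun x => x) fun i => r i = z) = z := fun z hz => leastBy_id ht (mem_img.1 hz)
  refine ⟨r, img r t, Rankx.mem_th h n0 ⟨fun z => leastBy t (fun x => x) fun i => r i = z,
    Tm.leastBy t (fun x => x) fun z i => r i = z, fun z hz => (l z hz).1, fun z hz w hw e => ?_⟩,
    fun i hi => mem_img.2 ⟨i, hi, rfl⟩, fun i hi j hj e => (m j _).2 ⟨i, hi, ⟨hj, e⟩, Or.inl rfl⟩⟩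
  rw [← (l z hz).2, ← (l w hw).2]
  exact congrArg r e

theorem ot_bdd (h : Th a th) {Y : ZFSet.{u}} (y0 : OD Set.univ Y) (y1 : ∀ y ∈ Y, y.IsOrdinal)
    (y2 : DInj Set.univ Y a) : ∃ b ∈ th, ∀ (r : ZFSet.{u}) (f : ZFSet.{u} → ZFSet.{u}),
      r.IsOrdinal → (∀ z ∈ r, f z ∈ Y) → (∀ z ∈ r, ∀ y ∈ z, f y ∈ f z) → r ⊆ b := by
  have : Tm Set.univ On (fun _ => Y) := od_iff.1 y0
  have b0 := img_colIn_ord y1
  refine ⟨img (colIn Y) Y, Rankx.mem_th h b0 ((DInj.inv (colIn Y)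
    (fun x hx y hy => colIn_inj y1 hx hy) fun y hy => mem_img.1 hy).trans y2),
    fun r f hr f1 f2 x hx => ?_⟩
  have k : ∀ x, x ∈ r → x ⊆ colIn Y (f x) := fun x => by
    induction x using ZFSet.inductionOn with
    | _ x ih =>
      intro hx y hy
      have h1 := hr.mem_trans hy hx
      exact (hr.mem h1).mem_of_subset_of_mem (colIn_ord _ _) (ih y hy h1)
        ((H46.mem_colIn y1 (f1 x hx)).2 ⟨f y, f1 y h1, f2 x hx y hy, rfl⟩)
  exact (hr.mem hx).mem_of_subset_of_mem b0 (k x hx) (mem_img.2 ⟨f x, f1 x hx, rfl⟩)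

end Pool.Agent.MP_ecfd11_lc.H65D
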