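import Pool.Agent.MP_ecfd11_lc.H65D.Base

/-!
The successor in HOD: existence, size, cofinality.
-/

set_option synthInstance.maxSize 4000

namespace Pool.Agent.MP_ecfd11_lc.H65D

open Pool.Agent.MP_ecfd11_lc.H20 Pool.Agent.MP_ecfd11_lc.H13X Pool.Agent.MP_ecfd11_lc.H3U
  Pool.Agent.MP_ecfd11_lc.H3E Pool.Agent.MP_ecfd11_lc.H65S

universe u

open ZFSet Cardinal Function Filter

variable {d m t th S L a : ZFSet.{u}} {be : ZFSet.{u} → ZFSet.{u}}
  {e : ZFSet.{u} → ZFSet.{u} → ZFSet.{u}}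

theorem th_exists (ht : t.IsOrdinal) : ∃ th, Th t th ∧ DInj Set.univ th (Lev t) := by
  obtain ⟨e, e0, e1, e2⟩ := od_enum (hod_Lev ht).self fun x hx => ((hod_Lev ht).mem hx).self
  obtain ⟨th, ⟨t0, t1⟩, t2⟩ := exists_min_mem
    (p := fun s => s.IsOrdinal ∧ ¬ DInj Set.univ s t) (x := img e (Lev t)) ⟨e1, fun h1 =>
      kp_cantor ht (DInj.trans ⟨e, e0, fun x hx => mem_img.2 ⟨x, hx, rfl⟩, e2⟩ h1)⟩
  have t3 : ∀ b ∈ th, DInj Set.univ b t := fun b hb => by_contra fun h1 => t2 b hb ⟨t0.mem hb, h1⟩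
  have t4 : th ⊆ img e (Lev t) := (e1.mem_or_subset t0).resolve_left fun h1 =>
    kp_cantor ht (DInj.trans ⟨e, e0, fun x hx => mem_img.2 ⟨x, hx, rfl⟩, e2⟩ (t3 _ h1))
  have := hod_tm (hod_Lev ht)
  exact ⟨th, ⟨t0, t3, t1⟩, DInj.inv e e2 fun z hz => mem_img.1 (t4 hz)⟩

theorem Th.succ (h : Th t th) (ht : t.IsOrdinal) : HODSucc t th :=
  ⟨(ht.mem_or_subset h.1).resolve_right fun h1 => h.2.2 (DInj.of_subset h1),
    H46.hodCard_iff.2 ⟨h.1, fun b hb h1 => h.2.2 (h1.trans (h.2.1 b hb))⟩,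
    fun z hz h1 h2 => (H46.hodCard_iff.1 h2).2 t h1 (h.2.1 z hz)⟩

theorem Th.inj (h : Th t th) (ht : t.IsOrdinal) : ∃ e, Inj t th e := by
  have : Tm Set.univ On (fun _ => t) := Tm.ofOrd ht
  obtain ⟨G, g0, g1⟩ := od_choice (C := Set.univ) th (fun z f => IsInj z t f)
    fun z hz => (h.2.1 z hz).exists_od (h.1.mem hz)
  replace g1 := fun z hz => g1 z hz trivial
  have := Tm.one (C := Set.univ) (A := On) G
  exact ⟨fun x y => app (G x) y, inferInstance, fun x hx y hy => (g1 x hx).1.app_mem' hy,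
    fun x hx y hy z hz e => (g1 x hx).2 y z _ ((g1 x hx).1.app_mem hy)
      (e ▸ (g1 x hx).1.app_mem hz)⟩

theorem sc_move (h : StronglyCompact d t) (hc : card th ≤ card t) : StronglyCompact d th := by
  obtain ⟨h0, U, u1, u2, u3⟩ := h
  obtain ⟨F, f1, f2⟩ := exists_inj_of_card_le hc
  refine ⟨h0, U.map fun s => th.sep fun x => F x ∈ s, ?_, ?_, fun a ha => ?_⟩
  · rw [Ultrafilter.coe_map]
    infer_instance
  · refine Ultrafilter.mem_map.2 (Filter.mem_of_superset u2 fun s hs => ⟨sep_subset, ?_⟩)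
    exact (card_le_of_inj F (fun x hx => (mem_sep.1 hx).2)
      fun x hx y hy => f2 x (mem_sep.1 hx).1 y (mem_sep.1 hy).1).trans_lt hs.2
  · exact Ultrafilter.mem_map.2 (Filter.mem_of_superset (u3 _ (f1 a ha)) fun s hs =>
      mem_sep.2 ⟨ha, hs⟩)

end Pool.Agent.MP_ecfd11_lc.H65D
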